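import Pool.Agent.Work.MP_e76ef6d3_pr.Final

/-!
# The systole of uniform high genus bipartite quadrangulations is tight

`RootedMaps n g` is the set of bipartite quadrangulations of genus `g` with `n` faces with one
distinguished edge, up to isomorphism: isomorphism classes of triples `(φ, α, r)`, where `φ` and
`α` are permutations of the `4 n` sides of `n` oriented squares, `φ` turns around the squares, `α`
is the gluing of the sides in pairs, and `r` is a side of the distinguished edge.
`q.syst` is the number of edges of a shortest non-contractible cycle of `q`.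
-/

set_option autoImplicit false

open Filter Topology

namespace Pool.Agent.Results.MP_e76ef6d3_pr.SystoleTight

open Pool.Agent.Syst

/-- The probability that the systole of a uniform rooted bipartite quadrangulation of genus `g`
with `n` faces is larger than `M`. -/
noncomputable def prob (n g M : ℕ) : ℝ :=
  (Nat.card {q : RootedMaps n g // (M : ℕ∞) < q.syst} : ℝ) / (Nat.card (RootedMaps n g) : ℝ)

/-- For every `θ` in `(0, 1 / 2)` and every sequence `g n` with `g n / n → θ`, the systole of a
uniform rooted bipartite quadrangulation of genus `g n` with `n` faces (they exist for all large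
`n`) is tight. -/
theorem result (θ : ℝ) (hθ0 : 0 < θ) (hθ1 : θ < 1 / 2) (g : ℕ → ℕ)
    (hg : Tendsto (fun n : ℕ => (g n : ℝ) / n) atTop (𝓝 θ)) :
    (∀ᶠ n in atTop, Finite (RootedMaps n (g n)) ∧ Nonempty (RootedMaps n (g n))) ∧
      Tendsto (fun M : ℕ => limsup (fun n => prob n (g n) M) atTop) atTop (𝓝 0) := by
  -- the genus is in a good range for large `n`
  set θ' : ℝ := θ / 2 with hθ'
  set δ : ℝ := (1 - 2 * θ) / 2 with hδ
  have hθ'0 : 0 < θ' := by positivity
  have hδ0 : 0 < δ := by rw [hδ]; linarith
  have hev : ∀ᶠ n : ℕ in atTop, 1 ≤ n ∧ θ' * n ≤ g n ∧ δ * n ≤ n - 2 * g n := by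
    have h1 : ∀ᶠ n : ℕ in atTop, θ' < (g n : ℝ) / n :=
      hg.eventually (lt_mem_nhds (by rw [hθ']; linarith))
    have h2 : ∀ᶠ n : ℕ in atTop, (g n : ℝ) / n < (1 - δ) / 2 :=
      hg.eventually (gt_mem_nhds (by rw [hδ]; linarith))
    filter_upwards [h1, h2, eventually_ge_atTop 1] with n h3 h4 h5
    have h6 : (0 : ℝ) < n := by exact_mod_cast h5
    rw [lt_div_iff₀ h6] at h3
    rw [div_lt_iff₀ h6] at h4
    refine ⟨h5, h3.le, ?_⟩
    linarith
  refine ⟨?_, ?_⟩
  · filter_upwards [hev] with n hn
    exact ⟨inferInstance, rooted_nonempty hn.1 hδ0 hn.2.2⟩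
  obtain ⟨C, c, hC, hc, h⟩ := tail_rooted θ' δ hθ'0 hδ0
  have hnn : ∀ n M : ℕ, 0 ≤ prob n (g n) M := fun n M => probSyst_nonneg n (g n) M
  have hle1 : ∀ n M : ℕ, prob n (g n) M ≤ 1 := fun n M => probSyst_le_one n (g n) M
  have hupper : ∀ M : ℕ, limsup (fun n => prob n (g n) M) atTop ≤ C * Real.exp (-(c * M)) := by
    intro M
    apply limsup_le_of_le
    · exact isCoboundedUnder_le_of_le atTop (fun n => hnn n M)
    · filter_upwards [hev, eventually_ge_atTop M] with n hn hnM
      have h1 := h n hn.1 (g n) M hn.2.1 hn.2.2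
      have h2 : min (M : ℝ) n = M := min_eq_left (by exact_mod_cast hnM)
      rw [h2] at h1
      exact h1
  have hlower : ∀ M : ℕ, 0 ≤ limsup (fun n => prob n (g n) M) atTop := by
    intro M
    apply le_limsup_of_frequently_le
    · exact Frequently.of_forall (fun n => hnn n M)
    · exact isBoundedUnder_of ⟨1, fun n => hle1 n M⟩
  have hlim : Tendsto (fun M : ℕ => C * Real.exp (-(c * M))) atTop (𝓝 0) := by
    have h1 : Tendsto (fun M : ℕ => -(c * (M : ℝ))) atTop atBot := by
      apply tendsto_neg_atTop_atBot.comp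
      exact tendsto_natCast_atTop_atTop.const_mul_atTop hc
    have h2 := (Real.tendsto_exp_atBot.comp h1).const_mul C
    simpa using h2
  exact squeeze_zero hlower hupper hlim

end Pool.Agent.Results.MP_e76ef6d3_pr.SystoleTight
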